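import Pool.Agent.Helper39.CR.GoalsT

/-! Packet CAR3-TCOR: all corner embeddings induce the same map. -/

set_option autoImplicit false

open TopologicalSpace

namespace Pool.Agent.Helper28.CR

open Pool.Agent.Helper39.CR

noncomputable section

/-- The rotated corner embedding. -/
def rotH {ι A M : Type} [Fintype ι] [NonUnitalCStarAlgebra A] [NonUnitalCStarAlgebra M]
    {e : ι → ι → A →ₗ[ℂ] M} (he : MUnits e) {j k : ι} (hjk : j ≠ k) (c s : ℝ)
    (hcs : c ^ 2 + s ^ 2 = 1) : A →⋆ₙₐ[ℂ] M where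
  toFun a := ((c : ℂ) ^ 2) • e j j a + ((c : ℂ) * s) • e j k a + ((c : ℂ) * s) • e k j a +
    ((s : ℂ) ^ 2) • e k k a
  map_smul' z a := by
    simp only [map_smul, MonoidHom.id_apply]
    module
  map_zero' := by simp
  map_add' a b := by
    simp only [map_add]
    module
  map_mul' a b := by
    have h1 : ((c : ℂ) ^ 2 + (s : ℂ) ^ 2) = 1 := by exact_mod_cast hcs
    have hkj : k ≠ j := hjk.symm
    simp only [add_mul, mul_add, smul_mul_assoc, mul_smul_comm, he.mul, he.mul0 _ _ _ _ _ _ hjk,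
      he.mul0 _ _ _ _ _ _ hkj, smul_zero, add_zero, zero_add]
    have h2 : ∀ x : M, x = ((c : ℂ) ^ 2 + (s : ℂ) ^ 2) • x := fun x => by rw [h1, one_smul]
    rw [h2 (((c : ℂ) ^ 2) • e j j (a * b) + ((c : ℂ) * s) • e j k (a * b) +
      ((c : ℂ) * s) • e k j (a * b) + ((s : ℂ) ^ 2) • e k k (a * b))]
    module
  map_star' a := by
    simp only [star_add, star_smul, he.star, star_pow, star_mul, Complex.star_def,
      Complex.conj_ofReal]
    module

theorem tcor : S_TCOR := by
  intro T i A M _ _ _ _ ι _ e he j k h h' hh hh'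
  by_cases hjk : j = k
  · subst hjk
    congr 1
    ext a
    rw [hh, hh']
  · let H : unitInterval → (A →⋆ₙₐ[ℂ] M) := fun t =>
      rotH he hjk (Real.cos (Real.pi * t / 2)) (Real.sin (Real.pi * t / 2))
        (Real.cos_sq_add_sin_sq _)
    have hc : ∀ a, Continuous fun t => H t a := by
      intro a
      change Continuous fun t : unitInterval =>
        ((Real.cos (Real.pi * t / 2) : ℂ) ^ 2) • e j j a +
        ((Real.cos (Real.pi * t / 2) : ℂ) * (Real.sin (Real.pi * t / 2) : ℂ)) • e j k a +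
        ((Real.cos (Real.pi * t / 2) : ℂ) * (Real.sin (Real.pi * t / 2) : ℂ)) • e k j a +
        ((Real.sin (Real.pi * t / 2) : ℂ) ^ 2) • e k k a
      fun_prop
    have key := T.homotopy i A M H hc
    have h0 : H 0 = h := by
      ext a
      rw [hh]
      change ((Real.cos (Real.pi * ((0 : unitInterval) : ℝ) / 2) : ℂ) ^ 2) • e j j a +
        ((Real.cos (Real.pi * ((0 : unitInterval) : ℝ) / 2) : ℂ) *
          (Real.sin (Real.pi * ((0 : unitInterval) : ℝ) / 2) : ℂ)) • e j k a +
        ((Real.cos (Real.pi * ((0 : unitInterval) : ℝ) / 2) : ℂ) *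
          (Real.sin (Real.pi * ((0 : unitInterval) : ℝ) / 2) : ℂ)) • e k j a +
        ((Real.sin (Real.pi * ((0 : unitInterval) : ℝ) / 2) : ℂ) ^ 2) • e k k a = e j j a
      simp
    have h1 : H 1 = h' := by
      ext a
      rw [hh']
      change ((Real.cos (Real.pi * ((1 : unitInterval) : ℝ) / 2) : ℂ) ^ 2) • e j j a +
        ((Real.cos (Real.pi * ((1 : unitInterval) : ℝ) / 2) : ℂ) *
          (Real.sin (Real.pi * ((1 : unitInterval) : ℝ) / 2) : ℂ)) • e j k a +
        ((Real.cos (Real.pi * ((1 : unitInterval) : ℝ) / 2) : ℂ) *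
          (Real.sin (Real.pi * ((1 : unitInterval) : ℝ) / 2) : ℂ)) • e k j a +
        ((Real.sin (Real.pi * ((1 : unitInterval) : ℝ) / 2) : ℂ) ^ 2) • e k k a = e k k a
      simp [-Complex.ofReal_cos, -Complex.ofReal_sin]
    rw [h0, h1] at key
    exact key

end

end Pool.Agent.Helper28.CR
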