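import Pool.Agent.Helper85.CR.Goals
import Pool.Agent.Helper50.PL.Chord

/-!
# Project CR (MP_bdaf95_co), packet EAR: a chord over one boundary vertex of a disc
-/

set_option autoImplicit false

namespace Pool.Agent.Helper28.CR

open Finset Equiv Helper28.VF Helper28.PL Helper50.PL Pool.Agent.Helper85.CR

/-- insertion of a chord into a face of a plane map (the theorem `Helper50.PL.stmtChord` with the
rotation and the reversal made explicit; the proof is the same) -/
theorem chordS (D V E F : Type) [Fintype D] [Fintype V] [Fintype E] [Fintype F] (M : PM D V E F)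
    (a b : D) (hab : a ≠ b) (hfc : M.fc a = M.fc b) :
    ∃ M' : PM (D ⊕ Bool) V (Option E) (Option F),
      M'.σ = sg M.σ a b hab ∧ M'.α = al M.α M.α_inv ∧
      (∀ d, M'.vt (Sum.inl d) = M.vt d) ∧
      M'.vt (Sum.inr false) = M.vt a ∧ M'.vt (Sum.inr true) = M.vt b := by
  classical
  set σ' := sg M.σ a b hab with hσ'
  set α' := al M.α M.α_inv with hα'
  have hαl : ∀ d, α' (Sum.inl d) = Sum.inl (M.α d) := fun d => rfl
  have hαf : α' (Sum.inr false) = Sum.inr true := rfl
  have hαt : α' (Sum.inr true) = Sum.inr false := rfl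
  -- face permutations
  set p : Perm D := M.σ * M.α with hp
  set p' : Perm (D ⊕ Bool) := σ' * α' with hp'
  have hpd : ∀ d, p d = M.σ (M.α d) := fun d => rfl
  have pa : ∀ d, p d = a → p' (Sum.inl d) = Sum.inr false := fun d h => sg_a (hab := hab) h
  have pb : ∀ d, p d = b → p' (Sum.inl d) = Sum.inr true := fun d h => sg_b (hab := hab) h
  have po : ∀ d, p d ≠ a → p d ≠ b → p' (Sum.inl d) = Sum.inl (p d) := fun d h1 h2 => sg_o (hab := hab) h1 h2
  have pf : p' (Sum.inr false) = Sum.inl b := sg_t (σ := M.σ) (hab := hab)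
  have pt : p' (Sum.inr true) = Sum.inl a := sg_f (σ := M.σ) (hab := hab)
  have hfcp : ∀ d, M.fc (p d) = M.fc d := fun d => ((M.fc_iff d (p d)).2 (sc_step d)).symm
  have hfcn : ∀ (n : ℕ) d, M.fc ((p ^ n) d) = M.fc d := by
    intro n
    induction n with
    | zero => intro d; simp
    | succ n ih => intro d; rw [pow_succ', Perm.mul_apply, hfcp, ih]
  have natpow : ∀ x y : D, M.fc x = M.fc y → ∃ n : ℕ, (p ^ n) x = y := by
    intro x y h
    exact ((M.fc_iff x y).1 h).exists_nat_pow_eq
  -- least exponents
  have hk := natpow a b hfc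
  have hm := natpow b a hfc.symm
  set k := Nat.find hk with hkdef
  set m := Nat.find hm with hmdef
  have kspec : (p ^ k) a = b := Nat.find_spec hk
  have mspec : (p ^ m) b = a := Nat.find_spec hm
  have kmin : ∀ i, i < k → (p ^ i) a ≠ b := fun i hi => Nat.find_min hk hi
  have mmin : ∀ i, i < m → (p ^ i) b ≠ a := fun i hi => Nat.find_min hm hi
  have kpos : 1 ≤ k := by
    by_contra hc
    have : k = 0 := by omega
    rw [this] at kspec
    exact hab (by simpa using kspec)
  have mpos : 1 ≤ m := by
    by_contra hc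
    have : m = 0 := by omega
    rw [this] at mspec
    exact hab (by simpa using mspec.symm)
  have psucc : ∀ (n : ℕ) x, p ((p ^ n) x) = (p ^ (n + 1)) x := by
    intro n x; rw [pow_succ']; rfl
  have padd : ∀ (n l : ℕ) x, (p ^ n) ((p ^ l) x) = (p ^ (n + l)) x := by
    intro n l x; rw [pow_add]; rfl
  have ka : ∀ i, 1 ≤ i → i ≤ k → (p ^ i) a ≠ a := by
    intro i hi hik h
    have h2 : (p ^ (k - i)) a = b := by
      have h3 : (p ^ (k - i)) ((p ^ i) a) = b := by
        rw [padd, show k - i + i = k by omega]; exact kspec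
      rwa [h] at h3
    exact kmin (k - i) (by omega) h2
  have mb : ∀ i, 1 ≤ i → i ≤ m → (p ^ i) b ≠ b := by
    intro i hi hik h
    have h2 : (p ^ (m - i)) b = a := by
      have h3 : (p ^ (m - i)) ((p ^ i) b) = a := by
        rw [padd, show m - i + i = m by omega]; exact mspec
      rwa [h] at h3
    exact mmin (m - i) (by omega) h2
  -- the arc A
  set A : D → Prop := fun d => ∃ i, i < k ∧ (p ^ i) a = d with hA
  have aA : A a := ⟨0, by omega, by simp⟩
  have bA : ¬ A b := by rintro ⟨i, hi, h⟩; exact kmin i hi h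
  have A1 : ∀ d, p d = a → ¬ A d := by
    rintro d h ⟨i, hi, rfl⟩
    rw [psucc] at h
    exact ka (i + 1) (by omega) (by omega) h
  have A2 : ∀ d, p d = b → A d := by
    intro d h
    refine ⟨k - 1, by omega, ?_⟩
    apply p.injective
    rw [psucc, h, show k - 1 + 1 = k by omega, kspec]
  have A3 : ∀ d, p d ≠ a → p d ≠ b → (A (p d) ↔ A d) := by
    intro d h1 h2
    constructor
    · rintro ⟨i, hi, h⟩
      rcases Nat.eq_zero_or_pos i with h0 | h0
      · subst h0; exact absurd (by simpa using h.symm) h1
      · refine ⟨i - 1, by omega, ?_⟩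
        apply p.injective
        rw [psucc, show i - 1 + 1 = i by omega, h]
    · rintro ⟨i, hi, rfl⟩
      rw [psucc] at h1 h2 ⊢
      refine ⟨i + 1, ?_, rfl⟩
      rcases Nat.lt_or_ge (i + 1) k with h' | h'
      · exact h'
      · have : i + 1 = k := by omega
        rw [this] at h2
        exact absurd kspec h2
  have afc : ∀ d, A d → M.fc d = M.fc a := by
    rintro d ⟨i, -, rfl⟩; exact hfcn i a
  -- dichotomy on the face
  have dich : ∀ d, M.fc d = M.fc a → A d ∨ ∃ j, j < m ∧ (p ^ j) b = d := by
    intro d h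
    obtain ⟨n, rfl⟩ := natpow a d h.symm
    clear h
    induction n with
    | zero => left; simpa using aA
    | succ n ih =>
      rcases ih with ⟨i, hi, h⟩ | ⟨j, hj, h⟩
      · rw [← psucc, ← h, psucc]
        rcases Nat.lt_or_ge (i + 1) k with h' | h'
        · exact Or.inl ⟨i + 1, h', rfl⟩
        · have : i + 1 = k := by omega
          rw [this, kspec]
          exact Or.inr ⟨0, by omega, by simp⟩
      · rw [← psucc, ← h, psucc]
        rcases Nat.lt_or_ge (j + 1) m with h' | h'
        · exact Or.inr ⟨j + 1, h', rfl⟩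
        · have : j + 1 = m := by omega
          rw [this, mspec]
          exact Or.inl aA
  -- the vertex and face maps
  set vt' : D ⊕ Bool → V := Sum.elim M.vt (fun c => if c then M.vt b else M.vt a) with hvt'
  set ed' : D ⊕ Bool → Option E := Sum.elim (fun d => some (M.ed d)) (fun _ => none) with hed'
  set fc' : D ⊕ Bool → Option F := Sum.elim (fun d => if A d then none else some (M.fc d))
    (fun c => if c then none else some (M.fc a)) with hfc'
  have hvtσ : ∀ d, M.vt (M.σ d) = M.vt d := fun d => ((M.vt_iff d (M.σ d)).2 (sc_step d)).symm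
  -- invariance of vt'
  have vinv : ∀ x, vt' (σ' x) = vt' x := by
    rintro (d | c)
    · by_cases h1 : M.σ d = a
      · rw [hσ', sg_a h1]
        simp only [hvt', Sum.elim_inr, Sum.elim_inl]
        rw [← hvtσ d, h1]; simp
      · by_cases h2 : M.σ d = b
        · rw [hσ', sg_b h2]
          simp only [hvt', Sum.elim_inr, Sum.elim_inl]
          rw [← hvtσ d, h2]; simp
        · rw [hσ', sg_o h1 h2]
          simp only [hvt', Sum.elim_inl]
          exact hvtσ d
    · cases c
      · rw [hσ', sg_f (σ := M.σ) (hab := hab)]; simp [hvt']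
      · rw [hσ', sg_t (σ := M.σ) (hab := hab)]; simp [hvt']
  have finv : ∀ x, fc' (p' x) = fc' x := by
    rintro (d | c)
    · by_cases h1 : p d = a
      · rw [pa d h1]
        simp only [hfc', Sum.elim_inr, Sum.elim_inl]
        rw [if_neg (A1 d h1)]
        have := hfcp d
        rw [h1] at this
        simp [this]
      · by_cases h2 : p d = b
        · rw [pb d h2]
          simp only [hfc', Sum.elim_inr, Sum.elim_inl]
          rw [if_pos (A2 d h2)]
          simp
        · rw [po d h1 h2]
          simp only [hfc', Sum.elim_inl]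
          rw [hfcp]
          by_cases h3 : A d
          · rw [if_pos h3, if_pos ((A3 d h1 h2).2 h3)]
          · rw [if_neg h3, if_neg (fun h => h3 ((A3 d h1 h2).1 h))]
    · cases c
      · rw [pf]
        simp only [hfc', Sum.elim_inr, Sum.elim_inl]
        rw [if_neg bA]; simp [hfc]
      · rw [pt]
        simp only [hfc', Sum.elim_inr, Sum.elim_inl]
        rw [if_pos aA]; simp
  have inv_sc : ∀ {Y : Type} (π : Perm (D ⊕ Bool)) (f : D ⊕ Bool → Y), (∀ x, f (π x) = f x) →
      ∀ x y, π.SameCycle x y → f x = f y := by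
    intro Y π f hf x y h
    obtain ⟨n, rfl⟩ := h.exists_nat_pow_eq
    clear h
    induction n with
    | zero => simp
    | succ n ih => rw [pow_succ', Perm.mul_apply, hf]; exact ih
  -- σ'-cycles
  have vstep : ∀ d, σ'.SameCycle (Sum.inl d) (Sum.inl (M.σ d)) := by
    intro d
    by_cases h1 : M.σ d = a
    · have e1 : σ' (Sum.inl d) = Sum.inr false := sg_a (hab := hab) h1
      have e2 : σ' (Sum.inr false) = Sum.inl a := sg_f (σ := M.σ) (hab := hab)
      have s1 := sc_step (π := σ') (Sum.inl d)
      have s2 := sc_step (π := σ') (Sum.inr false : D ⊕ Bool)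
      rw [e1] at s1
      rw [e2] at s2
      rw [h1]; exact s1.trans s2
    · by_cases h2 : M.σ d = b
      · have e1 : σ' (Sum.inl d) = Sum.inr true := sg_b (hab := hab) h2
        have e2 : σ' (Sum.inr true) = Sum.inl b := sg_t (σ := M.σ) (hab := hab)
        have s1 := sc_step (π := σ') (Sum.inl d)
        have s2 := sc_step (π := σ') (Sum.inr true : D ⊕ Bool)
        rw [e1] at s1
        rw [e2] at s2
        rw [h2]; exact s1.trans s2
      · have e1 : σ' (Sum.inl d) = Sum.inl (M.σ d) := sg_o (hab := hab) h1 h2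
        have s1 := sc_step (π := σ') (Sum.inl d)
        rwa [e1] at s1
  have vcyc : ∀ d e, M.σ.SameCycle d e → σ'.SameCycle (Sum.inl d) (Sum.inl e) := by
    intro d e h
    obtain ⟨n, rfl⟩ := h.exists_nat_pow_eq
    clear h
    induction n with
    | zero => simpa using Perm.SameCycle.refl _ _
    | succ n ih =>
      rw [pow_succ', Perm.mul_apply]
      exact ih.trans (vstep _)
  have vrep : ∀ x : D ⊕ Bool, ∃ d, σ'.SameCycle x (Sum.inl d) ∧ vt' x = M.vt d := by
    rintro (d | c)
    · exact ⟨d, Perm.SameCycle.refl _ _, rfl⟩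
    · cases c
      · refine ⟨a, ?_, by simp [hvt']⟩
        have e2 : σ' (Sum.inr false) = Sum.inl a := sg_f (σ := M.σ) (hab := hab)
        have s2 := sc_step (π := σ') (Sum.inr false : D ⊕ Bool)
        rwa [e2] at s2
      · refine ⟨b, ?_, by simp [hvt']⟩
        have e2 : σ' (Sum.inr true) = Sum.inl b := sg_t (σ := M.σ) (hab := hab)
        have s2 := sc_step (π := σ') (Sum.inr true : D ⊕ Bool)
        rwa [e2] at s2
  -- φ'-cycles
  have s_t : p'.SameCycle (Sum.inr true) (Sum.inl a) := by
    have := sc_step (π := p') (Sum.inr true : D ⊕ Bool)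
    rwa [pt] at this
  have s_f : p'.SameCycle (Sum.inr false) (Sum.inl b) := by
    have := sc_step (π := p') (Sum.inr false : D ⊕ Bool)
    rwa [pf] at this
  have ostep : ∀ d, p d ≠ a → p d ≠ b → p'.SameCycle (Sum.inl d) (Sum.inl (p d)) := by
    intro d h1 h2
    have := sc_step (π := p') (Sum.inl d : D ⊕ Bool)
    rwa [po d h1 h2] at this
  have arcA : ∀ i, i < k → p'.SameCycle (Sum.inl a) (Sum.inl ((p ^ i) a)) := by
    intro i
    induction i with
    | zero => intro _; simpa using Perm.SameCycle.refl _ _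
    | succ i ih =>
      intro hi
      have h1 := ih (by omega)
      refine h1.trans ?_
      rw [← psucc]
      apply ostep
      · rw [psucc]; exact ka (i + 1) (by omega) (by omega)
      · rw [psucc]; exact kmin (i + 1) hi
  have arcB : ∀ i, i < m → p'.SameCycle (Sum.inl b) (Sum.inl ((p ^ i) b)) := by
    intro i
    induction i with
    | zero => intro _; simpa using Perm.SameCycle.refl _ _
    | succ i ih =>
      intro hi
      have h1 := ih (by omega)
      refine h1.trans ?_
      rw [← psucc]
      apply ostep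
      · rw [psucc]; exact mmin (i + 1) hi
      · rw [psucc]; exact mb (i + 1) (by omega) (by omega)
  have other : ∀ (n : ℕ) d, M.fc d ≠ M.fc a →
      p'.SameCycle (Sum.inl d) (Sum.inl ((p ^ n) d)) := by
    intro n d hd
    induction n with
    | zero => simpa using Perm.SameCycle.refl _ _
    | succ n ih =>
      refine ih.trans ?_
      rw [← psucc]
      have hh : M.fc (p ((p ^ n) d)) = M.fc d := by rw [hfcp, hfcn]
      apply ostep
      · intro h; rw [h] at hh; exact hd hh.symm
      · intro h; rw [h] at hh; exact hd (hh.symm.trans hfc.symm)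
  -- classes
  have clsN : ∀ x, fc' x = none → p'.SameCycle x (Sum.inl a) := by
    rintro (d | c) h
    · simp only [hfc', Sum.elim_inl] at h
      by_cases hd : A d
      · obtain ⟨i, hi, rfl⟩ := hd
        exact (arcA i hi).symm
      · rw [if_neg hd] at h; exact absurd h (by simp)
    · cases c
      · simp [hfc'] at h
      · exact s_t
  have clsA : ∀ x, fc' x = some (M.fc a) → p'.SameCycle x (Sum.inl b) := by
    rintro (d | c) h
    · simp only [hfc', Sum.elim_inl] at h
      by_cases hd : A d
      · rw [if_pos hd] at h; exact absurd h (by simp)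
      · rw [if_neg hd] at h
        have h' : M.fc d = M.fc a := by simpa using h
        rcases dich d h' with h1 | ⟨j, hj, rfl⟩
        · exact absurd h1 hd
        · exact (arcB j hj).symm
    · cases c
      · exact s_f
      · simp [hfc'] at h
  have clsO : ∀ x f, fc' x = some f → f ≠ M.fc a → ∃ d, x = Sum.inl d ∧ M.fc d = f := by
    rintro (d | c) f h hf
    · simp only [hfc', Sum.elim_inl] at h
      by_cases hd : A d
      · rw [if_pos hd] at h; exact absurd h (by simp)
      · rw [if_neg hd] at h
        exact ⟨d, rfl, by simpa using h⟩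
    · cases c
      · simp only [hfc', Sum.elim_inr] at h
        exact absurd (by simpa using h.symm) hf
      · simp [hfc'] at h
  refine ⟨{ σ := σ', α := α', vt := vt', ed := ed', fc := fc', α_inv := ?_, α_ne := ?_,
            vt_iff := ?_, ed_iff := ?_, fc_iff := ?_, vt_surj := ?_, ed_surj := ?_, fc_surj := ?_,
            conn := ?_, euler := ?_ }, rfl, rfl, fun d => rfl, ?_, ?_⟩
  · rintro (d | c)
    · rw [hαl, hαl, M.α_inv]
    · cases c <;> rfl
  · rintro (d | c)
    · rw [hαl]; intro h; exact M.α_ne d (Sum.inl_injective h)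
    · cases c
      · rw [hαf]; simp
      · rw [hαt]; simp
  · intro x y
    constructor
    · intro h
      obtain ⟨d, h1, h2⟩ := vrep x
      obtain ⟨e, h3, h4⟩ := vrep y
      have : M.vt d = M.vt e := by rw [← h2, ← h4, h]
      exact (h1.trans (vcyc d e ((M.vt_iff d e).1 this))).trans h3.symm
    · exact inv_sc σ' vt' vinv x y
  · rintro (d | c) (e | c')
    · rw [hαl]
      simp only [hed', Sum.elim_inl, Option.some.injEq, Sum.inl.injEq]
      exact M.ed_iff d e
    · rw [hαl]; simp [hed']
    · cases c <;> simp [hed', hαf, hαt]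
    · cases c <;> cases c' <;> simp [hed', hαf, hαt]
  · intro x y
    constructor
    · intro h
      rcases hx : fc' x with _ | f
      · exact (clsN x hx).trans (clsN y (by rw [← h, hx])).symm
      · by_cases hf : f = M.fc a
        · subst hf
          exact (clsA x hx).trans (clsA y (by rw [← h, hx])).symm
        · obtain ⟨d, rfl, hd⟩ := clsO x f hx hf
          obtain ⟨e, rfl, he⟩ := clsO y f (by rw [← h, hx]) hf
          obtain ⟨n, rfl⟩ := natpow d e (by rw [hd, he])
          exact other n d (by rw [hd]; exact hf)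
    · exact inv_sc p' fc' finv x y
  · intro v
    obtain ⟨d, rfl⟩ := M.vt_surj v
    exact ⟨Sum.inl d, rfl⟩
  · rintro (_ | e)
    · exact ⟨Sum.inr true, rfl⟩
    · obtain ⟨d, rfl⟩ := M.ed_surj e
      exact ⟨Sum.inl d, rfl⟩
  · rintro (_ | f)
    · exact ⟨Sum.inr true, by simp [hfc']⟩
    · by_cases hf : f = M.fc a
      · exact ⟨Sum.inr false, by simp [hfc', hf]⟩
      · obtain ⟨d, rfl⟩ := M.fc_surj f
        refine ⟨Sum.inl d, ?_⟩
        simp only [hfc', Sum.elim_inl]
        rw [if_neg (fun h => hf (afc d h))]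
  · intro P hne hPσ hPα
    have q1 : ∀ d, P (Sum.inl d) → P (Sum.inl (M.σ d)) := by
      intro d h
      by_cases h1 : M.σ d = a
      · have e1 : σ' (Sum.inl d) = Sum.inr false := sg_a (hab := hab) h1
        have e2 : σ' (Sum.inr false) = Sum.inl a := sg_f (σ := M.σ) (hab := hab)
        have := hPσ _ (hPσ _ h)
        rw [e1, e2] at this
        rwa [h1]
      · by_cases h2 : M.σ d = b
        · have e1 : σ' (Sum.inl d) = Sum.inr true := sg_b (hab := hab) h2
          have e2 : σ' (Sum.inr true) = Sum.inl b := sg_t (σ := M.σ) (hab := hab)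
          have := hPσ _ (hPσ _ h)
          rw [e1, e2] at this
          rwa [h2]
        · have e1 : σ' (Sum.inl d) = Sum.inl (M.σ d) := sg_o (hab := hab) h1 h2
          have := hPσ _ h
          rwa [e1] at this
    have q2 : ∀ d, P (Sum.inl d) → P (Sum.inl (M.α d)) := by
      intro d h
      have := hPα _ h
      rwa [hαl] at this
    have q0 : ∃ d, P (Sum.inl d) := by
      obtain ⟨(d | c), h⟩ := hne
      · exact ⟨d, h⟩
      · cases c
        · have e2 : σ' (Sum.inr false) = Sum.inl a := sg_f (σ := M.σ) (hab := hab)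
          have := hPσ _ h
          rw [e2] at this
          exact ⟨a, this⟩
        · have e2 : σ' (Sum.inr true) = Sum.inl b := sg_t (σ := M.σ) (hab := hab)
          have := hPσ _ h
          rw [e2] at this
          exact ⟨b, this⟩
    have q := M.conn (fun d => P (Sum.inl d)) q0 q1 q2
    rintro (d | c)
    · exact q d
    · cases c
      · have e1 : σ' (Sum.inl (M.σ.symm a)) = Sum.inr false := sg_a (hab := hab) (by simp)
        have := hPσ _ (q (M.σ.symm a))
        rwa [e1] at this
      · have e1 : σ' (Sum.inl (M.σ.symm b)) = Sum.inr true := sg_b (hab := hab) (by simp)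
        have := hPσ _ (q (M.σ.symm b))
        rwa [e1] at this
  · have := M.euler
    simp only [Fintype.card_option]
    omega
  · simp [hvt']
  · simp [hvt']



section ear
variable {D V E F : Type} [Fintype D] [Fintype V] [Fintype E] [Fintype F]

/-- the chain condition for the remaining part of the face -/
theorem chain_map {M : PM D V E F} {M' : PM (D ⊕ Bool) V (Option E) (Option F)} {a b : D}
    (ha : ∀ d, M.σ (M.α d) = a → M'.σ (M'.α (Sum.inl d)) = Sum.inr false)
    (ho : ∀ d, M.σ (M.α d) ≠ a → M.σ (M.α d) ≠ b →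
      M'.σ (M'.α (Sum.inl d)) = Sum.inl (M.σ (M.α d))) :
    ∀ (L : List D) (e : D), (∀ y ∈ L, y ≠ a ∧ y ≠ b) →
      List.IsChain (fun d e => M.σ (M.α d) = e) (e :: (L ++ [a])) →
      List.IsChain (fun d e => M'.σ (M'.α d) = e)
        (Sum.inl e :: (L.map Sum.inl ++ [Sum.inr false])) := by
  intro L
  induction L with
  | nil =>
    intro e _ h
    simp only [List.nil_append, List.isChain_cons_cons] at h
    simp only [List.map_nil, List.nil_append, List.isChain_cons_cons]
    exact ⟨ha e h.1, List.isChain_singleton _⟩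
  | cons y L ih =>
    intro e hL h
    simp only [List.cons_append, List.isChain_cons_cons] at h
    simp only [List.map_cons, List.cons_append, List.isChain_cons_cons]
    obtain ⟨h1, h2⟩ := hL y (by simp)
    refine ⟨?_, ih y (fun z hz => hL z (by simp [hz])) h.2⟩
    rw [ho e (by rw [h.1]; exact h1) (by rw [h.1]; exact h2), h.1]

end ear

/-- **Packet EAR** -/
theorem gEAR : StmtEAR := by
  rintro W S A u x v l ⟨D, V, E, F, _, _, _, _, M, nm, b, hSi, hnm, hran, hA, ⟨-, hnd, hch⟩, hb⟩ huv
    hAuv
  obtain ⟨d0, d1, d2, t, rfl⟩ : ∃ d0 d1 d2 t, b = d0 :: d1 :: d2 :: t := by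
    match b, hb with
    | [], h => simp at h
    | [_], h => simp at h
    | [_, _], h => simp at h
    | d0 :: d1 :: d2 :: t, _ => exact ⟨d0, d1, d2, t, rfl⟩
  simp only [List.map_cons, List.cons.injEq] at hb
  obtain ⟨h0, h1, h2, hl⟩ := hb
  simp only [List.take_succ_cons, List.take_zero, List.cons_append, List.isChain_cons_cons] at hch
  obtain ⟨c0, c1, hch⟩ := hch
  have h02 : d0 ≠ d2 := by
    rintro rfl
    simp at hnd
  have hfcp : ∀ d, M.fc (M.σ (M.α d)) = M.fc d := fun d =>
    ((M.fc_iff d (M.σ (M.α d))).2 ⟨1, by simp⟩).symm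
  have hfc : M.fc d0 = M.fc d2 := by
    rw [← hfcp d0, c0, ← hfcp d1, c1]
  obtain ⟨M', hσ, hα, hvt, hva, hvb⟩ := chordS D V E F M d0 d2 h02 hfc
  have hαl : ∀ d, M'.α (Sum.inl d) = Sum.inl (M.α d) := fun d => by rw [hα]; rfl
  have hαf : M'.α (Sum.inr false) = Sum.inr true := by rw [hα]; rfl
  have hαt : M'.α (Sum.inr true) = Sum.inr false := by rw [hα]; rfl
  have pa : ∀ d, M.σ (M.α d) = d0 → M'.σ (M'.α (Sum.inl d)) = Sum.inr false := by
    intro d h
    rw [hαl, hσ]
    exact sg_a h
  have po : ∀ d, M.σ (M.α d) ≠ d0 → M.σ (M.α d) ≠ d2 →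
      M'.σ (M'.α (Sum.inl d)) = Sum.inl (M.σ (M.α d)) := by
    intro d h1 h2
    rw [hαl, hσ]
    exact sg_o h1 h2
  have pf : M'.σ (M'.α (Sum.inr false)) = Sum.inl d2 := by
    rw [hαf, hσ]
    exact sg_t
  have huA : ∀ y z, A y z → A z y := by
    intro y z h
    obtain ⟨d, hd1, hd2⟩ := (hA y z).1 h
    exact (hA z y).2 ⟨M.α d, hd2, by rw [M.α_inv]; exact hd1⟩
  have hvne : M.vt d0 ≠ M.vt d2 := by
    intro h
    apply huv
    rw [← h0, ← h2, h]
  have hno : ∀ d, ¬ (M.vt d = M.vt d0 ∧ M.vt (M.α d) = M.vt d2) := by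
    rintro d ⟨e1, e2⟩
    apply hAuv
    rw [hA]
    exact ⟨d, by rw [e1, h0], by rw [e2, h2]⟩
  have hno' : ∀ d, ¬ (M.vt d = M.vt d2 ∧ M.vt (M.α d) = M.vt d0) := by
    rintro d ⟨e1, e2⟩
    exact hno (M.α d) ⟨e2, by rw [M.α_inv]; exact e1⟩
  refine ⟨D ⊕ Bool, V, Option E, Option F, inferInstance, inferInstance, inferInstance,
    inferInstance, M', nm, Sum.inr false :: Sum.inl d2 :: t.map Sum.inl, ?_, hnm, hran, ?_, ?_, ?_⟩
  · refine ⟨?_, ?_⟩
    · rintro (d | c)
      · rw [hαl, hvt, hvt]
        exact hSi.noloop d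
      · cases c
        · rw [hαf, hva, hvb]
          exact hvne.symm
        · rw [hαt, hva, hvb]
          exact hvne
    · rintro (d | c) (e | c') e1 e2
      · rw [hvt, hvt] at e1
        rw [hαl, hαl, hvt, hvt] at e2
        rw [hSi.simple d e e1 e2]
      · exfalso
        rw [hvt] at e1
        rw [hαl, hvt] at e2
        cases c'
        · rw [hva] at e1
          rw [hαf, hvb] at e2
          exact hno d ⟨e1, e2⟩
        · rw [hvb] at e1
          rw [hαt, hva] at e2
          exact hno' d ⟨e1, e2⟩
      · exfalso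
        rw [hvt] at e1
        rw [hαl, hvt] at e2
        cases c
        · rw [hva] at e1
          rw [hαf, hvb] at e2
          exact hno e ⟨e1.symm, e2.symm⟩
        · rw [hvb] at e1
          rw [hαt, hva] at e2
          exact hno' e ⟨e1.symm, e2.symm⟩
      · cases c <;> cases c'
        · rfl
        · rw [hva, hvb] at e1
          exact absurd e1 hvne
        · rw [hva, hvb] at e1
          exact absurd e1.symm hvne
        · rfl
  · intro y z
    constructor
    · rintro (h | ⟨rfl, rfl⟩ | ⟨rfl, rfl⟩)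
      · obtain ⟨d, e1, e2⟩ := (hA y z).1 h
        exact ⟨Sum.inl d, by rw [hvt]; exact e1, by rw [hαl, hvt]; exact e2⟩
      · exact ⟨Sum.inr false, by rw [hva]; exact h0, by rw [hαf, hvb]; exact h2⟩
      · exact ⟨Sum.inr true, by rw [hvb]; exact h2, by rw [hαt, hva]; exact h0⟩
    · rintro ⟨(d | c), e1, e2⟩
      · rw [hvt] at e1
        rw [hαl, hvt] at e2
        exact Or.inl ((hA y z).2 ⟨d, e1, e2⟩)
      · cases c
        · rw [hva] at e1
          rw [hαf, hvb] at e2
          exact Or.inr (Or.inl ⟨e1.symm.trans h0, e2.symm.trans h2⟩)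
        · rw [hvb] at e1
          rw [hαt, hva] at e2
          exact Or.inr (Or.inr ⟨e1.symm.trans h2, e2.symm.trans h0⟩)
  · simp only [List.nodup_cons, List.mem_cons, not_or] at hnd
    obtain ⟨⟨-, n02, n0t⟩, -, n2t, nt⟩ := hnd
    refine ⟨by simp, ?_, ?_⟩
    · simp only [List.nodup_cons, List.mem_cons, List.mem_map, reduceCtorEq, and_false,
        exists_false, or_false, not_false_eq_true, Sum.inl.injEq, exists_eq_right, true_and]
      exact ⟨n2t, nt.map Sum.inl_injective⟩
    · simp only [List.take_succ_cons, List.take_zero, List.cons_append, List.isChain_cons_cons]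
      refine ⟨pf, ?_⟩
      refine chain_map pa po t d2 (fun y hy => ⟨?_, ?_⟩) hch
      · rintro rfl
        exact n0t hy
      · rintro rfl
        exact n2t hy
  · simp only [List.map_cons, List.map_map]
    rw [hva, hvt, h0, h2, ← hl]
    congr 2
    refine List.map_congr_left fun d _ => ?_
    show nm (M'.vt (Sum.inl d)) = nm (M.vt d)
    rw [hvt]

end Pool.Agent.Helper28.CR
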